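import Pool.Agent.H61.Quad.Main

/-!
Generation by a quadrangle for the finite projective planes that share all but at most about an
eighth of the parallel classes with `AG(2,K)`.

Paper proof.  Let `l'` be a line of the plane containing the affine points `A`, `B`, `R` which are
not collinear in `AG(2,K)`; take them as `(0,0)`, `(1,0)`, `(0,1)`.  For `r` in `K` put
`k = r^2+r+1`, `C = (k, -(r+1))/(r(2r+1))`, `D = (k, r)/((r+1)(2r+1))`.  If the five slopes of
`AC`, `BC`, `AD`, `BD`, `CD` are not exceptional, the closed set `S` generated by `A, B, C, D`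
contains `R` (the intersection of `l'` and `CD`), `G` (of `AC` and `BD`), `H` (of `AD` and `BC`);
`RG` is parallel to `AD` and `RH` is parallel to `AC`, so `S` has two points at infinity, the line
at infinity is spanned by `S` and the infinite points of the five slopes lie in `S`.  Intersecting
lines of the slopes `AC`, `BC`, `AD`, `CD` only, one finds that the first coordinates of the points
of `S` form an additive group invariant under multiplication by `1/(r+1)`, hence all of `K` when `r`
generates the field `K`.  At most `7 + 8 (β + 1) + 2 √n` values of `r` are excluded.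
-/

set_option autoImplicit false

namespace Pool.Agent.Results.MP_e0a4b3_co.FewClasses

/-- Let `P` be a finite projective plane whose points off the line `linf` are identified with
`K × K`.  Suppose that for all slopes `t` outside a set `B` of `β` elements of `K` the lines
`{(m + t y, y)}` of `AG(2,K)` are contained in lines of `P`, that `8 (β + 1) + 2 √n + 7 < n`,
`n = |K|`, and that some line of `P` contains three affine points which are not collinear in
`AG(2,K)`.  Then `P` is generated by a quadrangle. -/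
theorem result (P L K : Type) [Membership P L] [Configuration.ProjectivePlane P L] [Finite P]
    [Field K] (linf : L) (e : K × K → P) (he : Function.Injective e)
    (hlinf : ∀ p : P, p ∉ linf ↔ p ∈ Set.range e) (B : Set K)
    (hB : ∀ t : K, t ∉ B → ∀ m : K, ∃ l : L, ∀ y : K, e (m + t * y, y) ∈ l)
    (hn : 8 * (Nat.card B + 1) + 2 * Nat.sqrt (Nat.card K) + 7 < Nat.card K)
    (hnc : ∃ l : L, ∃ a b c : K × K, e a ∈ l ∧ e b ∈ l ∧ e c ∈ l ∧
      (b.1 - a.1) * (c.2 - a.2) ≠ (b.2 - a.2) * (c.1 - a.1)) :
    ∃ a b c d : P,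
      (¬ ∃ l : L, a ∈ l ∧ b ∈ l ∧ c ∈ l) ∧
      (¬ ∃ l : L, a ∈ l ∧ b ∈ l ∧ d ∈ l) ∧
      (¬ ∃ l : L, a ∈ l ∧ c ∈ l ∧ d ∈ l) ∧
      (¬ ∃ l : L, b ∈ l ∧ c ∈ l ∧ d ∈ l) ∧
      ∀ S : Set P, a ∈ S → b ∈ S → c ∈ S → d ∈ S →
        (∀ l m : L, l ≠ m →
          (∃ p q : P, p ∈ S ∧ q ∈ S ∧ p ≠ q ∧ p ∈ l ∧ q ∈ l) →
          (∃ p q : P, p ∈ S ∧ q ∈ S ∧ p ≠ q ∧ p ∈ m ∧ q ∈ m) →
          ∀ x : P, x ∈ l → x ∈ m → x ∈ S) →
        ∀ x : P, x ∈ S := by
  haveI : Finite K := by
    have h1 : Finite (K × K) := Finite.of_injective e he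
    exact Finite.of_injective (fun x : K => (x, (0 : K))) (fun x y h => (Prod.ext_iff.1 h).1)
  obtain ⟨l, a, b, c, ha, hb, hc, hdet⟩ := hnc
  exact Pool.Agent.H61.Quad.main_few ⟨he, hlinf⟩ B hB l hdet ha hb hc hn

end Pool.Agent.Results.MP_e0a4b3_co.FewClasses
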