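import Pool.Agent.H61.Quad.Main

/-!
Generation by a quadrangle for the Hall planes of order `q^2`, `q ≥ 5`: the planes other than
`AG(2,q^2)` which share with `AG(2,q^2)` the parallel classes of all slopes outside the subfield of
order `q` and infinity.  The paper proof is in `Pool/Agent/Results/MP_e0a4b3_co/FewClasses.lean`;
here a slope `s` of the adapted chart is exceptional exactly when `s^q = s`, and at most
`5 q` values of the parameter `r` are excluded.
-/

set_option autoImplicit false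

namespace Pool.Agent.Results.MP_e0a4b3_co.HallPlanes

/-- Let `P` be a finite projective plane whose points off the line `linf` are identified with
`K × K`, `K` a field with `q ^ 2` elements, `q ≥ 5`.  Suppose that for all slopes `t` with
`t ^ q ≠ t` the lines `{(m + t y, y)}` of `AG(2,K)` are contained in lines of `P`, and that some
line of `P` contains three affine points which are not collinear in `AG(2,K)`.  Then `P` is
generated by a quadrangle. -/
theorem result (P L K : Type) [Membership P L] [Configuration.ProjectivePlane P L] [Finite P]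
    [Field K] (q : ℕ) (hq : 5 ≤ q) (hK : Nat.card K = q ^ 2) (linf : L) (e : K × K → P)
    (he : Function.Injective e) (hlinf : ∀ p : P, p ∉ linf ↔ p ∈ Set.range e)
    (hB : ∀ t : K, t ^ q ≠ t → ∀ m : K, ∃ l : L, ∀ y : K, e (m + t * y, y) ∈ l)
    (hnc : ∃ l : L, ∃ a b c : K × K, e a ∈ l ∧ e b ∈ l ∧ e c ∈ l ∧
      (b.1 - a.1) * (c.2 - a.2) ≠ (b.2 - a.2) * (c.1 - a.1)) :
    ∃ a b c d : P,
      (¬ ∃ l : L, a ∈ l ∧ b ∈ l ∧ c ∈ l) ∧
      (¬ ∃ l : L, a ∈ l ∧ b ∈ l ∧ d ∈ l) ∧
      (¬ ∃ l : L, a ∈ l ∧ c ∈ l ∧ d ∈ l) ∧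
      (¬ ∃ l : L, b ∈ l ∧ c ∈ l ∧ d ∈ l) ∧
      ∀ S : Set P, a ∈ S → b ∈ S → c ∈ S → d ∈ S →
        (∀ l m : L, l ≠ m →
          (∃ p q : P, p ∈ S ∧ q ∈ S ∧ p ≠ q ∧ p ∈ l ∧ q ∈ l) →
          (∃ p q : P, p ∈ S ∧ q ∈ S ∧ p ≠ q ∧ p ∈ m ∧ q ∈ m) →
          ∀ x : P, x ∈ l → x ∈ m → x ∈ S) →
        ∀ x : P, x ∈ S := by
  haveI : Finite K := by
    have h1 : Finite (K × K) := Finite.of_injective e he
    exact Finite.of_injective (fun x : K => (x, (0 : K))) (fun x y h => (Prod.ext_iff.1 h).1)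
  obtain ⟨l, a, b, c, ha, hb, hc, hdet⟩ := hnc
  exact Pool.Agent.H61.Quad.main_hall ⟨he, hlinf⟩ q hq hK hB l hdet ha hb hc

end Pool.Agent.Results.MP_e0a4b3_co.HallPlanes
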