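import Pool.Agent.H58.TP.Final

/-!
Every nondesarguesian translation plane of order `p^2`, `p` prime, is generated by a quadrangle.

Paper proof.  Let `V` be the translation group (elementary abelian of order `p^4`), `X` a point of the
translation line, `Q = V / C X` the set of the other lines through `X`, a plane over `F_p`, and `S` a
closed set that contains `X` and a quadrangle but no other point of the translation line: a subplane of
some order `m`.  Let `F` be the set of its lines through `X`, `D f` the set of its points other than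
`X` on `f` in `F`, and `Λ` the set of its lines not through `X`; `|D f| = m`, `|F| = m + 1`,
`|Λ| = m^2`.
(1) The lines of `Λ` have different slopes, so `m^2 ≤ p^2`.
(2) Let `∑ c_f f = 0`, `∑ c_f = 0` be an affine dependency of `F` over `F_p`.  Then
`∑ c_f l(f) = 0` for all `l` in `Λ`; summing over the `m` lines through a point `a` of `D g` gives
`m c_g a = const`.  So if `p` does not divide `m`, `F` is affinely independent and `m = 2`.
(3) If `m = p`: the difference sets of the `D f` are pairwise disjoint (a parallelogram would give a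
second point at infinity) and have at least `p - 1` elements, so they have exactly `p - 1` elements
and `D f` is a coset of a subgroup `H f`; then `Λ` is closed under `l - l' + l''`, and the spread set
is additive, so that the plane is desarguesian.
(4) Fix `u` in `C X` and three lines through `X`.  The quadrangles `X`, `O`, `A`, `B` with
`AB` through `u` correspond to the slopes `Y` of `AB`.  If all of them had collinear diagonal points,
`Y ↦` (the slope of the line through `u` and `OB ∩ AX`) would be an involution without fixed points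
of the set of the `p^2` slopes; so one of them does not lie in a plane of order two.
(5) If `A`, `B`, `X` and `O` are chosen with linearly independent images in `Q` and the subplane
they generate has a second point at infinity, it is closed under addition and is the whole plane.
-/

set_option autoImplicit false

namespace Pool.Agent.Results.MP_e0a4b3_co.TranslationPlanes

/-- Let `P` be a finite projective plane of order `p ^ 2`, `p` prime, with a line `linf` such that for
any two different points `a`, `b` off `linf` some collineation fixes exactly the points of `linf` and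
takes `a` to `b` (a translation plane).  Suppose that Desargues' theorem fails in `P`.  Then every
point `a` of `linf` belongs to a quadrangle that generates `P`. -/
theorem result (P L : Type) [Membership P L] [Configuration.ProjectivePlane P L] [Finite P]
    (p : ℕ) (hp : p.Prime) (hn : Configuration.ProjectivePlane.order P L = p ^ 2) (linf : L)
    (htr : ∀ a b : P, a ∉ linf → b ∉ linf → a ≠ b → ∃ (σ : P ≃ P) (τ : L ≃ L),
      (∀ (x : P) (l : L), σ x ∈ τ l ↔ x ∈ l) ∧ (∀ x : P, σ x = x ↔ x ∈ linf) ∧ σ a = b)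
    (hnd : ¬ ∀ O A1 A2 A3 B1 B2 B3 : P,
      (¬ ∃ l : L, A1 ∈ l ∧ A2 ∈ l ∧ A3 ∈ l) →
      (¬ ∃ l : L, B1 ∈ l ∧ B2 ∈ l ∧ B3 ∈ l) →
      O ≠ A1 → O ≠ A2 → O ≠ A3 → O ≠ B1 → O ≠ B2 → O ≠ B3 →
      A1 ≠ B1 → A2 ≠ B2 → A3 ≠ B3 →
      (∃ l : L, O ∈ l ∧ A1 ∈ l ∧ B1 ∈ l) →
      (∃ l : L, O ∈ l ∧ A2 ∈ l ∧ B2 ∈ l) →
      (∃ l : L, O ∈ l ∧ A3 ∈ l ∧ B3 ∈ l) →
      (¬ ∃ l : L, A1 ∈ l ∧ A2 ∈ l ∧ B1 ∈ l ∧ B2 ∈ l) →
      (¬ ∃ l : L, A1 ∈ l ∧ A3 ∈ l ∧ B1 ∈ l ∧ B3 ∈ l) →
      (¬ ∃ l : L, A2 ∈ l ∧ A3 ∈ l ∧ B2 ∈ l ∧ B3 ∈ l) →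
      ∀ X Y Z : P, ∀ l12 m12 l13 m13 l23 m23 : L,
        A1 ∈ l12 → A2 ∈ l12 → B1 ∈ m12 → B2 ∈ m12 → X ∈ l12 → X ∈ m12 →
        A1 ∈ l13 → A3 ∈ l13 → B1 ∈ m13 → B3 ∈ m13 → Y ∈ l13 → Y ∈ m13 →
        A2 ∈ l23 → A3 ∈ l23 → B2 ∈ m23 → B3 ∈ m23 → Z ∈ l23 → Z ∈ m23 →
        ∃ n : L, X ∈ n ∧ Y ∈ n ∧ Z ∈ n) :
    ∀ a : P, a ∈ linf → ∃ b c d : P,
      (¬ ∃ l : L, a ∈ l ∧ b ∈ l ∧ c ∈ l) ∧
      (¬ ∃ l : L, a ∈ l ∧ b ∈ l ∧ d ∈ l) ∧
      (¬ ∃ l : L, a ∈ l ∧ c ∈ l ∧ d ∈ l) ∧
      (¬ ∃ l : L, b ∈ l ∧ c ∈ l ∧ d ∈ l) ∧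
      ∀ S : Set P, a ∈ S → b ∈ S → c ∈ S → d ∈ S →
        (∀ l m : L, l ≠ m →
          (∃ p q : P, p ∈ S ∧ q ∈ S ∧ p ≠ q ∧ p ∈ l ∧ q ∈ l) →
          (∃ p q : P, p ∈ S ∧ q ∈ S ∧ p ≠ q ∧ p ∈ m ∧ q ∈ m) →
          ∀ x : P, x ∈ l → x ∈ m → x ∈ S) →
        ∀ x : P, x ∈ S := by
  intro a ha
  exact Pool.Agent.H58.TP.translation_main p hp hn linf htr (fun h => hnd h.desargues) ha

end Pool.Agent.Results.MP_e0a4b3_co.TranslationPlanes
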